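import Pool.Agent.Work.MP_254e61_co.FC.Upper
import Pool.Agent.Work.MP_254e61_co.FC.Lower

set_option autoImplicit false

namespace Pool.Agent.Results.MP_254e61_co.FaceConnected

open Pool.Agent.Work.MP_254e61_co.FC

/-- Face-connected families of congruent regular tetrahedra in `ℝ³` with a common vertex and
pairwise disjoint interiors have at most twenty members, and twenty members occur. -/
theorem result :
    (∀ (e : ℝ), 0 < e → ∀ (p : E3) (F : Finset (Finset E3)),
      IsFamily e p F → FaceConn F → F.card ≤ 20) ∧
    (∀ (e : ℝ), 0 < e → ∀ p : E3,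
      ∃ F : Finset (Finset E3), IsFamily e p F ∧ FaceConn F ∧ F.card = 20) :=
  ⟨fun e he p F hF hc => upper e he p F hF hc, fun e he p => lower e he p⟩

end Pool.Agent.Results.MP_254e61_co.FaceConnected
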